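import Pool.Agent.Y365.FS.Sph

set_option autoImplicit false

/-!
# The flag complex inequality with Coxeter edge weights, for spheres with small join factors

The numbers `N σ` are the orders of the Coxeter groups `W_σ`, or any numbers with the properties
(1)-(5) below.  The class of spheres is closed under links, and the weighted quantity is a
combination of the Charney-Davis quantities of the links; the coefficient of the link of `T` is the
sum `b T` of the `(-1/2)^|T \ U| / N U`, up to the sign `(-1)^|T|`.  For the orders of finite Coxeter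
groups `b T` is, up to the factor `#W_T`, the Charney-Davis quantity of the Coxeter complex.
-/

namespace Pool.Agent.Results.MP_375bfa_co.CoxeterWeights

open Pool.Agent.W497.FS

/-- Let `S` be a flag homology `(2 m - 1)`-sphere each of whose join factors `C`, of dimension
`e - 1` say, has dimension at most two or at most `max (2 e + 6) (3 e)` vertices.  Let `w e ≥ 2` be
weights of the edges and let `N σ` be rational numbers such that (1) `N ∅ = 1`, (2) `N {v} = 2`,
(3) `N e = 2 w e` for each edge `e`, (4) `N (A ∪ B) = N A * N B` if `A ∪ B` is a face and all edges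
between `A` and `B` have weight `2`, (5) for each face `T` with at least three vertices which is
connected by edges of weight at least `3`, the sum `b T` of the `(-1/2)^|T \ U| / N U`, `U ⊆ T`, is
zero if `|T|` is odd and has the sign `(-1)^j`, or is zero, if `|T| = 2 j`.
Then `(-1)^m ∑ (-1)^|σ| / N σ ≥ 0`. -/
theorem result (k : Type) [Field k] (n m : ℕ) (S : Finset (Finset (Fin n)))
    (hS : IsFlagSphere k (2 * m) S)
    (hC : ∀ C : Finset (Fin n), IsFactor S C → (∀ F ∈ S, F ⊆ C → F.card ≤ 3) ∨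
      ∃ F ∈ S, F ⊆ C ∧ C.card ≤ max (2 * F.card + 6) (3 * F.card))
    (w : Finset (Fin n) → ℕ) (hw : ∀ e ∈ S, e.card = 2 → 2 ≤ w e)
    (N : Finset (Fin n) → ℚ) (h0 : N ∅ = 1) (h1 : ∀ v, {v} ∈ S → N {v} = 2)
    (h2 : ∀ e ∈ S, e.card = 2 → N e = 2 * w e)
    (hmul : ∀ A B : Finset (Fin n), Disjoint A B → A ∪ B ∈ S →
      (∀ a ∈ A, ∀ b ∈ B, w {a, b} = 2) → N (A ∪ B) = N A * N B)
    (hsign : ∀ T ∈ S, 3 ≤ T.card →
      (∀ A ⊆ T, A.Nonempty → A ≠ T → ∃ a ∈ A, ∃ b ∈ T, b ∉ A ∧ w {a, b} ≠ 2) →
      (Odd T.card → ∑ U ∈ T.powerset, (-1 / 2) ^ (T.card - U.card) / N U = 0) ∧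
      ∀ j, T.card = 2 * j →
        0 ≤ (-1) ^ j * ∑ U ∈ T.powerset, (-1 / 2) ^ (T.card - U.card) / N U) :
    0 ≤ (-1) ^ m * ∑ σ ∈ S, (-1) ^ σ.card / N σ := by
  have hsub : ∀ F ∈ S, ∀ G ⊆ F, G ∈ S := by
    obtain ⟨r, hr⟩ := hS
    exact fun F hF G hG => hr.1 F hF G hG
  exact Y365.FS.weighted hS hC (Y365.FS.goodOrders_of hsub w hw N h0 h1 h2 hmul hsign)

end Pool.Agent.Results.MP_375bfa_co.CoxeterWeights
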