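import Pool.Agent.Y365.FS.Sph

set_option autoImplicit false

/-!
# The Charney-Davis inequality: conditions on the join factors of even rank

All edge weights are `2`.
-/

namespace Pool.Agent.Results.MP_375bfa_co.EvenFactors

open Pool.Agent.W497.FS

/-- The Charney-Davis inequality for the flag homology `(2 m - 1)`-spheres each of whose join
factors `C`, of dimension `e - 1` say, has `e` odd (each facet meets `C` in `e` vertices), or
`e ≤ 2`, or at most `max (2 e + 6) (3 e)` vertices. -/
theorem result (k : Type) [Field k] (n m : ℕ) (S : Finset (Finset (Fin n)))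
    (hS : IsFlagSphere k (2 * m) S)
    (hC : ∀ C : Finset (Fin n), IsFactor S C → (∃ G ∈ S, G.card = 2 * m ∧ Odd (G ∩ C).card) ∨
      (∀ F ∈ S, F ⊆ C → F.card ≤ 2) ∨
      ∃ F ∈ S, F ⊆ C ∧ C.card ≤ max (2 * F.card + 6) (3 * F.card)) :
    0 ≤ (-1) ^ m * Pool.Agent.W497.FS.omega S :=
  Y365.FS.cd_factors hS hC

end Pool.Agent.Results.MP_375bfa_co.EvenFactors
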