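import Pool.Agent.Y132.SI.Wts

/-!
# The flag complex inequality with Coxeter edge weights for the spheres in the `ℓ²` class

`G` is a graph on `Fin n`, `cliques G` its flag complex.  `HSph d G`: the flag complex is a real homology
`(d-1)`-sphere, i.e. the link of every simplex `T` has the reduced real homology of the sphere of dimension
`d - 1 - |T|`.  `lk G T` is the set of the vertices of the link of `T`.

The class `AM d` contains the order complexes of the graded posets of length `d` which are Gorenstein* over `F_2`
(for example the barycentric subdivisions of all the triangulated `(d-1)`-spheres), is closed under full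
subcomplexes, isomorphisms, edge subdivisions, joins, `d ↦ d + 1` and gluing along full subcomplexes of the class
`d - 2`, and contains, for `d = 2 m + 2`, every flag complex all of whose vertex links are in the class `2 m + 1`.
The class `AQ` is larger.

The numbers `N σ` are the orders of the Coxeter groups `W_σ`, or any numbers with the properties (1)-(5) below.
-/

set_option autoImplicit false

namespace Pool.Agent.Results.MP_375bfa_co.L2Class

open Pool.Agent.W907.SG Pool.Agent.W907.SM Pool.Agent.TH652.Above Pool.Agent.Y132.SI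

/-- Let the flag complex `S` of `G` be a real homology `(2 m - 1)`-sphere which is in the class `AM (2 m)`, or such
that the link of each simplex with `2 m - 2 j` elements is in the class `AQ (2 j)`, for `j ≤ m`.  Let `w e ≥ 2` be
weights of the edges and let `N σ` be rational numbers such that (1) `N ∅ = 1`, (2) `N {v} = 2`, (3) `N e = 2 w e`
for each edge `e`, (4) `N (A ∪ B) = N A * N B` if `A ∪ B` is a simplex and all edges between `A` and `B` have weight
`2`, (5) for each simplex `T` with at least three vertices which is connected by edges of weight at least `3`, the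
sum of the `(-1/2)^|T \ U| / N U`, `U ⊆ T`, is zero if `|T|` is odd and has the sign `(-1)^j`, or is zero, if
`|T| = 2 j`.
Then `(-1)^m ∑ (-1)^|σ| / N σ ≥ 0`. -/
theorem result (n m : ℕ) (G : SimpleGraph (Fin n)) (hS : HSph (2 * m) G)
    (hC : AM (2 * m) G ∨ ∀ (T : Finset (Fin n)) (j : ℕ), G.IsClique (T : Set (Fin n)) → T.card + 2 * j = 2 * m →
      AQ (2 * j) (G.induce (lk G T)))
    (w : Finset (Fin n) → ℕ) (hw : ∀ e ∈ cliques G, e.card = 2 → 2 ≤ w e)
    (N : Finset (Fin n) → ℚ) (h0 : N ∅ = 1) (h1 : ∀ v, N {v} = 2)
    (h2 : ∀ e ∈ cliques G, e.card = 2 → N e = 2 * w e)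
    (hmul : ∀ A B : Finset (Fin n), Disjoint A B → A ∪ B ∈ cliques G →
      (∀ a ∈ A, ∀ b ∈ B, w {a, b} = 2) → N (A ∪ B) = N A * N B)
    (hsign : ∀ T ∈ cliques G, 3 ≤ T.card →
      (∀ A ⊆ T, A.Nonempty → A ≠ T → ∃ a ∈ A, ∃ b ∈ T, b ∉ A ∧ w {a, b} ≠ 2) →
      (Odd T.card → ∑ U ∈ T.powerset, (-1 / 2) ^ (T.card - U.card) / N U = 0) ∧
      ∀ j, T.card = 2 * j →
        0 ≤ (-1) ^ j * ∑ U ∈ T.powerset, (-1 / 2) ^ (T.card - U.card) / N U) :
    0 ≤ (-1) ^ m * ∑ σ ∈ cliques G, (-1) ^ σ.card / N σ := by
  have hsub : ∀ F ∈ cliques G, ∀ U ⊆ F, U ∈ cliques G := fun F hF U hU =>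
    mem_cliques.2 ((mem_cliques.1 hF).subset (Finset.coe_subset.2 hU))
  exact weighted_class hS hC (Y365.FS.goodOrders_of hsub w hw N h0 (fun v _ => h1 v) h2 hmul hsign)

end Pool.Agent.Results.MP_375bfa_co.L2Class
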